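import Pool.Agent.U670.WD.Tab

set_option autoImplicit false
set_option linter.unusedSectionVars false

/-!
# The isomorphism problem for finite extensions of products which permute the factors
-/

namespace Pool.Agent.U670.WD

open SemidirectProduct Pool.Agent.Q223.IS Pool.Agent.Q32.DP Pool.Agent.U181.IP
  Pool.Agent.U181.IP.FinT Pool.Agent.U181.IP.FinC Pool.Agent.Helper926 Pool.Agent.Helper926.RE
open Pool.Agent.U670.WC (Irr CWr Z Act GG code code_pr code_iso kx kx_mem)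

/-- The presentations of the groups `(∏ i, G i ^ X i) ⋊ Q`, where the `G i` are groups of
presentations in `C`, `Q` is a finite group which acts on all `X i` (not necessarily faithfully) and
the disjoint union of the `X i` is finite. -/
def PermC (C : Pres → Prop) (p : Pres) : Prop :=
  ∃ (I : Type) (k : I → Pres) (X : I → Type) (Q : Type) (_ : Group Q) (_ : ∀ i, MulAction Q (X i)),
    (∀ i, C (k i)) ∧ Finite Q ∧ Finite (Σ i, X i) ∧
    Nonempty (PG p ≃* CWr X (fun i => PG (k i)) Q)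

/-- `p` has the data `w` -/
def Data (C : Pres → Prop) (p : Pres) (w : Z) : Prop :=
  (∀ a ∈ w.1, C a) ∧ V w ∧ Nonempty (PG p ≃* PG (code w.1 w.2.1 w.2.2))

theorem data_re {C : Pres → Prop} (hC : REPred C) : REPred fun z : Pres × Z => Data C z.1 z.2 := by
  unfold Data
  refine RE.and ?_ (RE.and (RE.comp v_cp.to_re Computable.snd) ?_)
  · exact RE.all_mem (p := fun (_ : Pres × Z) (a : Pres) => C a) (l := fun z : Pres × Z => z.2.1)
      (RE.comp hC Computable.snd) (Computable.fst.comp Computable.snd)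
  · exact RE.comp iso_re (f := fun z : Pres × Z => (z.1, code z.2.1 z.2.2.1 z.2.2.2))
      (Computable.fst.pair (code_pr.to_comp.comp Computable.snd))

theorem exists_data {C : Pres → Prop} {p : Pres} (h : PermC C p) : ∃ w : Z, Data C p w ∧
    ∃ (I : Type) (k : I → Pres) (X : I → Type) (Q : Type) (_ : Group Q)
      (_ : ∀ i, MulAction Q (X i)), (∀ i, C (k i)) ∧ Finite Q ∧ Finite (Σ i, X i) ∧
      Act w X k Q ∧
      Nonempty (PG p ≃* CWr X (GG k) Q) := by
  obtain ⟨I, k, X, Q, iQ, iX, hk, h1, h2, ⟨e⟩⟩ := h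
  classical
  obtain ⟨w, hw, hv, hL⟩ := exists_act' (Q := Q) (X := X) k
  obtain ⟨f⟩ := code_iso (L := w.1) (t := w.2.1) (s := w.2.2) hw
  refine ⟨w, ⟨?_, hv, ⟨e.trans f.symm⟩⟩, I, k, X, Q, iQ, iX, hk, h1, h2, hw, ⟨e⟩⟩
  intro a ha
  obtain ⟨p, rfl⟩ := hL a ha
  exact hk _

theorem of_data {C : Pres → Prop} {p : Pres} {w : Z} (h : Data C p w) :
    ∃ (I : Type) (k : I → Pres) (X : I → Type) (Q : Type) (_ : Group Q)
      (_ : ∀ i, MulAction Q (X i)), (∀ i, C (k i)) ∧ Finite Q ∧ Finite (Σ i, X i) ∧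
      Act w X k Q ∧
      Nonempty (PG p ≃* CWr X (GG k) Q) := by
  obtain ⟨h1, h2, ⟨e⟩⟩ := h
  classical
  obtain ⟨Q, X, iQ, iX, h4, h5, hw⟩ := act_of' C h1 h2
  obtain ⟨f⟩ := code_iso (L := w.1) (t := w.2.1) (s := w.2.2) hw
  exact ⟨_, _, X, Q, iQ, iX, fun i => i.2, h4, h5, hw, ⟨e.trans f⟩⟩

theorem permC_re {C : Pres → Prop} (hC : REPred C) : REPred (PermC C) := by
  refine REPred.of_eq (RE.ex (p := fun (p : Pres) (w : Z) => Data C p w) (data_re hC)) ?_
  intro p
  constructor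
  · rintro ⟨w, hw⟩
    obtain ⟨I, k, X, Q, iQ, iX, h1, h4, h5, -, h8⟩ := of_data hw
    exact ⟨I, k, X, Q, iQ, iX, h1, h4, h5, h8⟩
  · intro h
    obtain ⟨w, hw, -⟩ := exists_data h
    exact ⟨w, hw⟩

theorem main (C : Pres → Prop) (hC : REPred C) (hI : ∀ k, C k → Irr (PG k))
    (hS : Solvable C) : Solvable (PermC C) := by
  obtain ⟨f, hf, hf'⟩ := hS
  let N : Pres × Pres → Prop := fun z => ∃ w : (Z × Z) × List (Pres × Pres),
    (Data C z.1 w.1.1 ∧ Data C z.2 w.1.2) ∧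
    (∀ b ∈ w.2, (C b.1 ∧ C b.2) ∧ false ∈ f (b.1, b.2)) ∧ ¬ IsoB w.1.1 w.1.2 w.2
  have hN : REPred N := by
    refine RE.ex (p := fun (z : Pres × Pres) (w : (Z × Z) × List (Pres × Pres)) =>
      (Data C z.1 w.1.1 ∧ Data C z.2 w.1.2) ∧
      (∀ b ∈ w.2, (C b.1 ∧ C b.2) ∧ false ∈ f (b.1, b.2)) ∧ ¬ IsoB w.1.1 w.1.2 w.2) ?_
    refine RE.and (RE.and ?_ ?_) (RE.and ?_ ?_)
    · exact RE.comp (data_re hC)
        (f := fun y : (Pres × Pres) × ((Z × Z) × List (Pres × Pres)) => (y.1.1, y.2.1.1))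
        ((Computable.fst.comp Computable.fst).pair
          (Computable.fst.comp (Computable.fst.comp Computable.snd)))
    · exact RE.comp (data_re hC)
        (f := fun y : (Pres × Pres) × ((Z × Z) × List (Pres × Pres)) => (y.1.2, y.2.1.2))
        ((Computable.snd.comp Computable.fst).pair
          (Computable.snd.comp (Computable.fst.comp Computable.snd)))
    · refine RE.all_mem (p := fun (_ : (Pres × Pres) × ((Z × Z) × List (Pres × Pres)))
        (b : Pres × Pres) => (C b.1 ∧ C b.2) ∧ false ∈ f (b.1, b.2))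
        (l := fun y : (Pres × Pres) × ((Z × Z) × List (Pres × Pres)) => y.2.2) ?_
        (Computable.snd.comp Computable.snd)
      refine RE.and (RE.and ?_ ?_) ?_
      · exact RE.comp hC (Computable.fst.comp Computable.snd)
      · exact RE.comp hC (Computable.snd.comp Computable.snd)
      · exact NONMATCH.re_mem hf false
          (g := fun y : ((Pres × Pres) × ((Z × Z) × List (Pres × Pres))) × (Pres × Pres) =>
            (y.2.1, y.2.2))
          ((Computable.fst.comp Computable.snd).pair (Computable.snd.comp Computable.snd))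
    · exact RE.comp (cp_not isoB_cp).to_re Computable.snd
  refine SEARCH.solvable_of hN ?_ ?_
  · rintro p q ⟨⟨⟨w, w'⟩, B⟩, ⟨h1, h2⟩, h3, h4⟩ ⟨e⟩
    obtain ⟨I, k, X, Q, iQ, iX, hk, a1, a2, a5, ⟨a6⟩⟩ := of_data h1
    obtain ⟨J, l, Y, R, iR, iY, hl, b1, b2, b5, ⟨b6⟩⟩ := of_data h2
    classical
    obtain ⟨θ, σ, hσ, hg⟩ := key (fun i => hI _ (hk i)) (fun j => hI _ (hl j))
      (a6.symm.trans (e.trans b6))
    refine h4 ((isoB_iff a5 b5 B).1 ⟨θ, σ, hσ, fun p hp => ?_⟩)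
    have h5 : (C (k p.1) ∧ C (l (σ p).1)) ∧ false ∈ f (k p.1, l (σ p).1) := h3 _ hp
    exact absurd (Part.mem_unique ((hf' _ _ h5.1.1 h5.1.2).1 (hg p)) h5.2) (by decide)
  · intro p q hp hq h
    obtain ⟨w, hw, I, k, X, Q, iQ, iX, hk, a1, a2, a5, ⟨a6⟩⟩ := exists_data hp
    obtain ⟨w', hw', J, l, Y, R, iR, iY, hl, b1, b2, b5, ⟨b6⟩⟩ := exists_data hq
    classical
    let B : List (Pres × Pres) := (w.1 ×ˢ w'.1).filter fun b => ¬ Nonempty (PG b.1 ≃* PG b.2)
    refine ⟨((w, w'), B), ⟨hw, hw'⟩, ?_, ?_⟩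
    · intro b hb
      obtain ⟨h1, h2⟩ := List.mem_filter.1 hb
      obtain ⟨h3, h4⟩ := List.mem_product.1 h1
      have h5 : ¬ Nonempty (PG b.1 ≃* PG b.2) := of_decide_eq_true h2
      have h6 := hw.1 _ h3
      have h7 := hw'.1 _ h4
      exact ⟨⟨h6, h7⟩, (hf' _ _ h6 h7).2 h5⟩
    · intro hiso
      obtain ⟨θ, σ, hσ, hB⟩ := (isoB_iff a5 b5 B).2 hiso
      have hg : ∀ p, Nonempty (PG (k p.1) ≃* PG (l (σ p).1)) := by
        intro p
        by_contra hcon
        apply hB p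
        apply List.mem_filter.2
        refine ⟨List.mem_product.2 ⟨?_, ?_⟩, decide_eq_true hcon⟩
        · obtain ⟨hlen, e, u, -, -, hk'⟩ := a5
          rw [← hk']
          exact kx_mem (lt_of_lt_of_eq (u p).2 hlen.symm)
        · obtain ⟨hlen, e, u, -, -, hk'⟩ := b5
          rw [← hk']
          exact kx_mem (lt_of_lt_of_eq (u (σ p)).2 hlen.symm)
      obtain ⟨g⟩ := conv (G := GG k) (H := GG l) θ σ hσ hg
      exact h ⟨a6.trans (g.trans b6.symm)⟩

/-- the combination -/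
theorem comb (C : Pres → Prop) (hC : REPred C)
    (hB : ∀ k, C k → Irr (PG k) ∧ FreelyIndec (PG k)) (hS : Solvable C) :
    (REPred (WC.Irs C) ∧ (∀ k, WC.Irs C k → Irr (PG k)) ∧ Solvable (WC.Irs C)) ∧
      REPred (PermC (WC.Irs C)) ∧ Solvable (PermC (WC.Irs C)) := by
  obtain ⟨⟨h1, h2, h3⟩, -⟩ := WC.comb C hC hB hS
  exact ⟨⟨h1, h2, h3⟩, permC_re h1, main (WC.Irs C) h1 h2 h3⟩

/-- the unconditional case -/
theorem unconditional : REPred (PermC (WC.FPr fun _ => False)) ∧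
    Solvable (PermC (WC.FPr fun _ => False)) := by
  obtain ⟨h1, h2⟩ := (comb _ (RE.const False) (fun _ hk => hk.elim) WC.solv_false).2
  have h : WC.Irs (fun _ => False) = WC.FPr fun _ => False := by
    funext p
    exact propext ⟨fun h => h.resolve_left id, Or.inr⟩
  rw [h] at h1 h2
  exact ⟨h1, h2⟩

end Pool.Agent.U670.WD
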