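import Pool.Agent.U670.WC.Unc

set_option autoImplicit false
set_option linter.unusedSectionVars false

/-!
# Uniqueness of virtual decompositions, up to the FC-centre
-/

namespace Pool.Agent.U670.WD

open Pool.Agent.U670.WC (Irr comap_fi Irr.ne Irr.fc)

/-- the centralizer has finite index -/
def FC {G : Type} [Group G] (z : G) : Prop := (Subgroup.centralizer {z}).FiniteIndex

section

variable {W X Y : Type} {G : X → Type} {H : Y → Type} [Group W] [∀ x, Group (G x)]
  [∀ y, Group (H y)] [DecidableEq X] [DecidableEq Y]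

/-- a direct product of finite index in `W`, `self`: an element which commutes with finite index
subgroups of all factors but one is in the remaining factor -/
structure Fam (ι : (∀ x, G x) →* W) : Prop where
  inj : Function.Injective ι
  fi : ι.range.FiniteIndex
  self : ∀ (x : X) (w : W), (∀ y, y ≠ x → ∃ E : Subgroup (G y), E.FiniteIndex ∧
    ∀ g ∈ E, w * ι (Pi.mulSingle y g) = ι (Pi.mulSingle y g) * w) →
    ∃ g n, FC n ∧ w = ι (Pi.mulSingle x g) * n

variable (ι : (∀ x, G x) →* W) (κ : (∀ y, H y) →* W)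

/-- the part of the factor `x` in the other product -/
def Dx (x : X) : Subgroup (G x) := (κ.range.comap ι).comap (MonoidHom.mulSingle G x)

theorem mem_Dx {x : X} {g : G x} : g ∈ Dx ι κ x ↔ ∃ l, κ l = ι (Pi.mulSingle x g) := Iff.rfl

/-- the product of the `Dx` -/
def DD : Subgroup (∀ x, G x) := ⨅ x, (Dx ι κ x).comap (Pi.evalMonoidHom G x)

theorem mem_DD {f : ∀ x, G x} : f ∈ DD ι κ ↔ ∀ x, f x ∈ Dx ι κ x := by
  unfold DD
  rw [Subgroup.mem_iInf]
  rfl

/-- `x` is seen by `y` -/
def Rel (x : X) (y : Y) : Prop := ∃ (g : G x) (l : ∀ y, H y), κ l = ι (Pi.mulSingle x g) ∧ l y ≠ 1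

variable {ι κ} [Fintype X] [Fintype Y]

theorem Dx_fi (hκ : Fam κ) (x : X) : (Dx ι κ x).FiniteIndex := by
  exact comap_fi _ (comap_fi _ hκ.fi)

theorem DD_fi (hκ : Fam κ) : (DD ι κ).FiniteIndex := by
  unfold DD
  refine Subgroup.finiteIndex_iInf ?_
  intro x
  exact comap_fi _ (Dx_fi (ι := ι) hκ x)

/-- splitting -/
theorem split {f : ∀ x, G x} (hf : f ∈ DD ι κ) :
    ∃ l : X → ∀ y, H y, (∀ x, κ (l x) = ι (Pi.mulSingle x (f x))) := by
  choose l hl using fun x => (mem_Dx ι κ).1 ((mem_DD ι κ).1 hf x)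
  exact ⟨l, hl⟩

theorem map_fi (hι : Fam ι) (hκ : Fam κ) : ((DD ι κ).map ι).FiniteIndex := by
  have h1 := DD_fi (ι := ι) hκ
  have h2 := hι.fi
  refine ⟨?_⟩
  rw [Subgroup.index_map_of_injective _ hι.inj]
  exact mul_ne_zero h1.index_ne_zero h2.index_ne_zero

theorem prod_single {A : Type} [Group A] {Z : Type} {M : Z → Type} [∀ z, Group (M z)] [Fintype Z]
    [DecidableEq Z] (u : (∀ z, M z) →* A) (f : ∀ z, M z) :
    u f = (Finset.univ : Finset Z).noncommProd (fun z => u (Pi.mulSingle z (f z)))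
      (fun i _ j _ _ => (Pi.mulSingle_apply_commute f i j).map u) := by
  conv_lhs => rw [← Finset.noncommProd_mulSingle f]
  exact Finset.map_noncommProd (Finset.univ : Finset Z) (fun z => Pi.mulSingle z (f z))
    (fun i _ j _ _ => Pi.mulSingle_apply_commute f i j) u

theorem claim1 (hι : Fam ι) (hκ : Fam κ) (hH : ∀ y, Irr (H y)) {x x' : X} {y : Y} (hne : x ≠ x')
    (h : Rel ι κ x y) (h' : Rel ι κ x' y) : False := by
  -- the two commuting subgroups of `H`
  let A : Subgroup (H y) := ((MonoidHom.range (ι.comp (MonoidHom.mulSingle G x))).comap κ).map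
    (Pi.evalMonoidHom H y)
  let B : Subgroup (H y) := ((((Pi.evalMonoidHom G x).ker).map ι).comap κ).map
    (Pi.evalMonoidHom H y)
  have hAB : ∀ a ∈ A, ∀ b ∈ B, a * b = b * a := by
    rintro _ ⟨l, ⟨g, hg⟩, rfl⟩ _ ⟨m, ⟨f, hf, hfm⟩, rfl⟩
    have hf' : f x = 1 := hf
    have hg' : ι (Pi.mulSingle x g) = κ l := hg
    have h1 : κ (l * m) = κ (m * l) := by
      rw [map_mul, map_mul, ← hg', ← hfm, ← map_mul, ← map_mul]
      congr 1
      funext z
      by_cases hz : z = x
      · subst hz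
        simp [hf']
      · simp [hz]
    have h2 := hκ.inj h1
    exact congrFun h2 y
  have hfi : (A ⊔ B).FiniteIndex := by
    have h1 := map_fi hι hκ
    have h2 : (((DD ι κ).map ι).comap κ).FiniteIndex := comap_fi _ h1
    have h3 : ((((DD ι κ).map ι).comap κ).map (Pi.evalMonoidHom H y)).FiniteIndex := by
      refine ⟨fun h0 => h2.index_ne_zero ?_⟩
      have h4 := Subgroup.index_map_dvd (((DD ι κ).map ι).comap κ)
        (f := Pi.evalMonoidHom H y) (Function.surjective_eval y)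
      rw [h0] at h4
      exact Nat.eq_zero_of_zero_dvd h4
    refine Subgroup.finiteIndex_of_le (H := (((DD ι κ).map ι).comap κ).map
      (Pi.evalMonoidHom H y)) ?_
    rintro _ ⟨l, ⟨f, hf, hfl⟩, rfl⟩
    obtain ⟨m, hm⟩ := split hf
    have hsplit : f = Pi.mulSingle x (f x) * (Function.update f x 1) := by
      funext z
      by_cases hz : z = x
      · subst hz
        simp
      · simp [hz]
    have hl : κ (m x) * ι (Function.update f x 1) = κ l := by
      rw [hm x, ← map_mul, ← hsplit, hfl]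
    have hl2 : ι (Function.update f x 1) = κ ((m x)⁻¹ * l) := by
      rw [map_mul, map_inv, ← hl, inv_mul_cancel_left]
    have e : (Pi.evalMonoidHom H y) l = (m x y) * ((m x)⁻¹ * l) y := by
      show l y = m x y * ((m x y)⁻¹ * l y)
      rw [mul_inv_cancel_left]
    rw [e]
    refine Subgroup.mul_mem_sup ?_ ?_
    · exact ⟨m x, ⟨f x, (hm x).symm⟩, rfl⟩
    · refine ⟨(m x)⁻¹ * l, ⟨Function.update f x 1, ?_, hl2⟩, rfl⟩
      show (Function.update f x 1) x = 1
      simp
  rcases (hH y).2 A B hAB hfi with h0 | h0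
  · obtain ⟨g, l, hl, hly⟩ := h
    apply hly
    have : l y ∈ A := ⟨l, ⟨g, hl.symm⟩, rfl⟩
    rw [h0] at this
    exact Subgroup.mem_bot.1 this
  · obtain ⟨g, l, hl, hly⟩ := h'
    apply hly
    have : l y ∈ B := by
      refine ⟨l, ⟨Pi.mulSingle x' g, ?_, hl.symm⟩, rfl⟩
      show (Pi.mulSingle x' g : ∀ x, G x) x = 1
      exact Pi.mulSingle_eq_of_ne hne g
    rw [h0] at this
    exact Subgroup.mem_bot.1 this

/-- an element of the factor `y` in the other product -/
theorem claim2 (hι : Fam ι) (hκ : Fam κ) (hH : ∀ y, Irr (H y)) (y : Y) :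
    ∃ x, Rel ι κ x y ∧ Rel κ ι y x := by
  have h1 := map_fi hι hκ
  have h2 : ((((DD ι κ).map ι).comap κ).comap (MonoidHom.mulSingle H y)).FiniteIndex :=
    comap_fi _ (comap_fi _ h1)
  obtain ⟨h, ⟨φ, hφ, hφ'⟩, hne⟩ := (hH y).ne h2
  have hφ'' : ι φ = κ (Pi.mulSingle y h) := hφ'
  obtain ⟨l, hl⟩ := split hφ
  -- the product of the `l x` is `single y h`
  have hc : Set.Pairwise ((Finset.univ : Finset X) : Set X) (Function.onFun Commute l) := by
    intro i _ j _ hij
    apply hκ.inj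
    rw [map_mul, map_mul, hl, hl, ← map_mul, ← map_mul, (Pi.mulSingle_apply_commute φ i j).eq]
  have hp : (Finset.univ : Finset X).noncommProd l hc = Pi.mulSingle y h := by
    apply hκ.inj
    rw [Finset.map_noncommProd, ← hφ'', prod_single ι φ]
    exact Finset.noncommProd_congr rfl (fun x _ => hl x) _
  have hx : ∃ x, l x y ≠ 1 := by
    by_contra hcon
    push Not at hcon
    apply hne
    have h3 := congrFun hp y
    rw [Pi.mulSingle_eq_same] at h3
    rw [← h3]
    have h4 : (Pi.evalMonoidHom H y) ((Finset.univ : Finset X).noncommProd l hc) = 1 := by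
      rw [Finset.map_noncommProd]
      exact Finset.noncommProd_eq_pow_card _ _ _ (1 : H y) (fun x _ => hcon x) |>.trans (one_pow _)
    exact h4
  obtain ⟨x, hx⟩ := hx
  refine ⟨x, ⟨φ x, l x, hl x, hx⟩, ⟨h, φ, hφ'', ?_⟩⟩
  intro h5
  apply hx
  have h6 := hl x
  rw [h5, Pi.mulSingle_one, map_one] at h6
  have h7 : l x = 1 := hκ.inj (by rw [h6, map_one])
  rw [h7]
  rfl

theorem claim3 (hι : Fam ι) (hκ : Fam κ) (hG : ∀ x, Irr (G x)) (hH : ∀ y, Irr (H y)) {x : X} {y : Y}
    (hxy : Rel ι κ x y) (k : G x) :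
    ∃ h n, FC n ∧ ι (Pi.mulSingle x k) = κ (Pi.mulSingle y h) * n := by
  apply hκ.self
  intro y' hy'
  obtain ⟨x', h1, h2⟩ := claim2 hι hκ hH y'
  have hx' : x' ≠ x := by
    rintro rfl
    obtain ⟨x2, h3, h4⟩ := claim2 hι hκ hH y
    have h5 : x2 = x' := by
      by_contra hne
      exact claim1 hι hκ hH hne h3 hxy
    subst h5
    exact claim1 hκ hι hG (Ne.symm hy') h4 h2
  refine ⟨Dx κ ι y', Dx_fi hι y', ?_⟩
  intro h hh
  obtain ⟨f, hf⟩ := (mem_Dx κ ι).1 hh
  have hfx : f x = 1 := by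
    by_contra hne
    have h6 : Rel κ ι y' x := ⟨h, f, hf, hne⟩
    obtain ⟨y2, h7, h8⟩ := claim2 hκ hι hG x
    have h9 : y' = y2 := by
      by_contra hne
      exact claim1 hκ hι hG hne h6 h7
    subst h9
    exact hy' (by
      by_contra hne2
      exact claim1 hκ hι hG hne2 h6 (by
        obtain ⟨x2, h3, h4⟩ := claim2 hι hκ hH y
        have h5 : x2 = x := by
          by_contra hne
          exact claim1 hι hκ hH hne h3 hxy
        subst h5
        exact h4))
  rw [← hf, ← map_mul, ← map_mul]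
  congr 1
  funext z
  by_cases hz : z = x
  · subst hz
    simp [hfx]
  · simp [hz]

/-- the two decompositions have the same factors -/
theorem uniq (hι : Fam ι) (hκ : Fam κ) (hG : ∀ x, Irr (G x)) (hH : ∀ y, Irr (H y)) : ∃ σ : X ≃ Y, ∀ x,
    (∀ k, ∃ h n, FC n ∧ ι (Pi.mulSingle x k) = κ (Pi.mulSingle (σ x) h) * n) ∧
    ∀ h, ∃ k n, FC n ∧ κ (Pi.mulSingle (σ x) h) = ι (Pi.mulSingle x k) * n := by
  choose f hf hf' using claim2 hι hκ hH
  choose g hg hg' using claim2 hκ hι hG
  have h1 : ∀ y, g (f y) = y := by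
    intro y
    by_contra hne
    exact claim1 hκ hι hG hne (hg (f y)) (hf' y)
  have h2 : ∀ x, f (g x) = x := by
    intro x
    by_contra hne
    exact claim1 hι hκ hH hne (hf (g x)) (hg' x)
  refine ⟨⟨g, f, h2, h1⟩, fun x => ⟨fun k => claim3 hι hκ hG hH (hg' x) k,
    fun h => claim3 hκ hι hH hG (hg x) h⟩⟩

end

end Pool.Agent.U670.WD
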