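import Pool.Agent.U670.WD.Uniq

set_option autoImplicit false
set_option linter.unusedSectionVars false

/-!
# Finite groups permuting the factors of a direct product, possibly not faithfully
-/

namespace Pool.Agent.U670.WD

open SemidirectProduct
open Pool.Agent.U670.WC (Irr Irr.ne Irr.fc CWr cAct S S_same S_ne' S_ne S_one S_mul S_inj cur unc
  cur_unc unc_cur cur_S unc_S conj_S act_S comap_fi)

theorem FC.equiv {W V : Type} [Group W] [Group V] (e : W ≃* V) {w : W} (h : FC w) : FC (e w) := by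
  unfold FC at h ⊢
  have h1 := comap_fi e.symm.toMonoidHom h
  refine Subgroup.finiteIndex_of_le (H := (Subgroup.centralizer {w}).comap e.symm.toMonoidHom) ?_
  intro v hv
  have hv' : e.symm v ∈ Subgroup.centralizer {w} := hv
  rw [Subgroup.mem_centralizer_iff] at hv' ⊢
  intro z hz
  have hz' : z = e w := hz
  subst hz'
  apply e.symm.injective
  rw [map_mul, map_mul, e.symm_apply_apply]
  exact hv' w rfl

section

variable {I : Type} {X G : I → Type} [∀ i, Group (G i)] {Q : Type} [Group Q]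
  [∀ i, MulAction Q (X i)]

/-- trivial action -/
def Tr (X : I → Type) {Q : Type} [Group Q] [∀ i, MulAction Q (X i)] (q : Q) : Prop :=
  ∀ (i : I) (x : X i), q • x = x

theorem tr_act {q : Q} (hq : Tr X q) (f : ∀ i, X i → G i) : cAct X G Q q f = f := by
  funext i x
  show f i (q⁻¹ • x) = f i x
  rw [inv_smul_eq_iff.2 (hq i x).symm]

theorem tr_comm {q : Q} (hq : Tr X q) (f : ∀ i, X i → G i) :
    (inr q : CWr X G Q) * inl f = inl f * inr q := by
  have h1 : (inl (cAct X G Q q f) : CWr X G Q) = inr q * inl f * inr q⁻¹ := inl_aut q f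
  rw [tr_act hq, map_inv] at h1
  have h2 : (inr q * inl f * (inr q)⁻¹) * inr q = (inr q * inl f : CWr X G Q) :=
    inv_mul_cancel_right _ _
  exact h2.symm.trans (congrArg (fun z => z * inr q) h1.symm)

theorem base_fi [Finite Q] : (inl : (∀ i, X i → G i) →* CWr X G Q).range.FiniteIndex := by
  rw [range_inl_eq_ker_rightHom]
  exact Subgroup.finiteIndex_ker _

theorem tr_fc [Finite Q] {q : Q} (hq : Tr X q) : FC (inr q : CWr X G Q) := by
  have h1 := base_fi (X := X) (G := G) (Q := Q)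
  refine Subgroup.finiteIndex_of_le (H := (inl : (∀ i, X i → G i) →* CWr X G Q).range) ?_
  rintro _ ⟨f, rfl⟩
  rw [Subgroup.mem_centralizer_iff]
  intro z hz
  have hz' : z = inr q := hz
  subst hz'
  exact tr_comm hq f

variable [DecidableEq I] [∀ i, DecidableEq (X i)]

theorem loc (hG : ∀ i, Irr (G i)) (w : CWr X G Q) (j : I) (y : X j) {E : Subgroup (G j)}
    (hE : E.FiniteIndex) (h : ∀ g ∈ E, w * inl (S j y g) = inl (S j y g) * w) :
    w.right • y = y ∧ w.left j y = 1 := by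
  obtain ⟨f, q⟩ := w
  have key : ∀ g ∈ E, f * S j (q • y) g = S j y g * f := by
    intro g hg
    have h1 := h g hg
    rw [mk_eq_inl_mul_inr, mul_assoc, conj_S, ← mul_assoc, ← mul_assoc] at h1
    have h2 := mul_right_cancel h1
    rw [← map_mul, ← map_mul] at h2
    exact inl_injective h2
  have h1 : q • y = y := by
    by_contra hne
    obtain ⟨g, hg, hg1⟩ := (hG j).ne hE
    apply hg1
    have h2 := congrFun (congrFun (key g hg) j) y
    rw [Pi.mul_apply, Pi.mul_apply, Pi.mul_apply, Pi.mul_apply, S_same, S_ne' j (Ne.symm hne),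
      mul_one] at h2
    exact right_eq_mul.1 h2
  refine ⟨h1, ?_⟩
  show f j y = 1
  apply (hG j).fc
  refine Subgroup.finiteIndex_of_le (H := E) ?_
  intro g hg
  rw [Subgroup.mem_centralizer_iff]
  intro z hz
  have hz' : z = f j y := hz
  subst hz'
  have h5 := congrFun (congrFun (key g hg) j) y
  rw [h1, Pi.mul_apply, Pi.mul_apply, Pi.mul_apply, Pi.mul_apply, S_same] at h5
  exact h5

theorem fc_form (hG : ∀ i, Irr (G i)) {w : CWr X G Q} (h : FC w) : ∃ q, Tr X q ∧ w = inr q := by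
  have h1 : ∀ j (y : X j), w.right • y = y ∧ w.left j y = 1 := by
    intro j y
    have h2 := comap_fi ((inl : (∀ i, X i → G i) →* CWr X G Q).comp (cur.comp
      (MonoidHom.mulSingle (fun p : Σ i, X i => G p.1) ⟨j, y⟩))) h
    refine loc hG w j y h2 ?_
    intro g hg
    have hg' : inl (cur (Pi.mulSingle (M := fun p : Σ i, X i => G p.1) ⟨j, y⟩ g)) ∈
      Subgroup.centralizer {w} := hg
    rw [cur_S, Subgroup.mem_centralizer_iff] at hg'
    exact hg' w rfl
  refine ⟨w.right, fun j y => (h1 j y).1, ?_⟩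
  refine SemidirectProduct.ext ?_ rfl
  funext j y
  exact (h1 j y).2

theorem fam_inl (hG : ∀ i, Irr (G i)) [Finite Q] :
    Fam ((inl : (∀ i, X i → G i) →* CWr X G Q).comp cur) := by
  refine ⟨?_, ?_, ?_⟩
  · intro a b hab
    have h1 : cur a = cur b := inl_injective hab
    rw [← unc_cur a, h1, unc_cur]
  · have h1 : ((inl : (∀ i, X i → G i) →* CWr X G Q).comp cur).range =
        (inl : (∀ i, X i → G i) →* CWr X G Q).range := by
      ext w
      constructor
      · rintro ⟨f, rfl⟩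
        exact ⟨cur f, rfl⟩
      · rintro ⟨f, rfl⟩
        exact ⟨unc f, rfl⟩
    rw [h1]
    exact base_fi
  · rintro ⟨i, x⟩ w hw
    have key : ∀ j (y : X j), (⟨j, y⟩ : Σ i, X i) ≠ ⟨i, x⟩ → w.right • y = y ∧ w.left j y = 1 := by
      intro j y hy
      obtain ⟨E, hE, h⟩ := hw ⟨j, y⟩ hy
      refine loc hG w j y hE ?_
      intro g hg
      have h1 : w * inl (cur (Pi.mulSingle (M := fun p : Σ i, X i => G p.1) ⟨j, y⟩ g)) =
        inl (cur (Pi.mulSingle (M := fun p : Σ i, X i => G p.1) ⟨j, y⟩ g)) * w := h g hg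
      rw [cur_S] at h1
      exact h1
    have h2 : w.right • x = x := by
      by_contra hne
      have h3 := (key i (w.right • x) (fun h => hne (by simpa using h))).1
      exact hne (MulAction.injective w.right h3)
    have h3 : Tr X w.right := by
      intro j y
      by_cases hy : (⟨j, y⟩ : Σ i, X i) = ⟨i, x⟩
      · cases hy
        exact h2
      · exact (key j y hy).1
    refine ⟨w.left i x, inr w.right, tr_fc h3, ?_⟩
    show w = (inl (cur _) : CWr X G Q) * inr w.right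
    rw [cur_S, ← mk_eq_inl_mul_inr]
    refine SemidirectProduct.ext ?_ rfl
    funext j y
    show w.left j y = S i x (w.left i x) j y
    by_cases hy : (⟨j, y⟩ : Σ i, X i) = ⟨i, x⟩
    · cases hy
      rw [S_same]
    · rw [(key j y hy).2, S_ne hy]

end

theorem Fam.equiv {P : Type} {A : P → Type} [∀ p, Group (A p)] [DecidableEq P] {W V : Type}
    [Group W] [Group V] {ι : (∀ p, A p) →* W} (h : Fam ι) (e : W ≃* V) :
    Fam (e.toMonoidHom.comp ι) := by
  refine ⟨e.injective.comp h.inj, ?_, ?_⟩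
  · rw [MonoidHom.range_comp]
    refine ⟨?_⟩
    rw [Subgroup.index_map_of_injective _ e.injective]
    have h1 : e.toMonoidHom.range.index = 1 := by
      rw [Subgroup.index_eq_one, MonoidHom.range_eq_top]
      exact e.surjective
    rw [h1, mul_one]
    exact h.fi.index_ne_zero
  · intro x w hw
    obtain ⟨g, n, hn, hg⟩ := h.self x (e.symm w) (by
      intro y hy
      obtain ⟨E, hE, h1⟩ := hw y hy
      refine ⟨E, hE, fun g hg => ?_⟩
      apply e.injective
      rw [map_mul, map_mul, e.apply_symm_apply]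
      exact h1 g hg)
    refine ⟨g, e n, hn.equiv e, ?_⟩
    show w = e (ι _) * e n
    rw [← map_mul, ← hg, e.apply_symm_apply]

section

variable {I J : Type} {X G : I → Type} {Y H : J → Type} [∀ i, Group (G i)] [∀ j, Group (H j)]
  [DecidableEq I] [∀ i, DecidableEq (X i)] [DecidableEq J] [∀ j, DecidableEq (Y j)]
  {Q R : Type} [Group Q] [∀ i, MulAction Q (X i)] [Group R] [∀ j, MulAction R (Y j)]

/-- half of the structure of isomorphisms -/
theorem half [Finite (Σ i, X i)] [Finite (Σ j, Y j)] [Finite Q] [Finite R]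
    (hG : ∀ i, Irr (G i)) (hH : ∀ j, Irr (H j)) (e : CWr X G Q ≃* CWr Y H R) :
    ∃ (θ : Q →* R) (σ : (Σ i, X i) ≃ (Σ j, Y j)), Function.Injective θ ∧
      (∀ q p, σ (q • p) = θ q • σ p) ∧
      (∀ p k, ∃ (h : H (σ p).1) (n : CWr Y H R), FC n ∧
        e (inl (S p.1 p.2 k)) = inl (S (σ p).1 (σ p).2 h) * n) ∧
      ∀ p h, ∃ (k : G p.1) (n : CWr Y H R), FC n ∧ (inl (S (σ p).1 (σ p).2 h) : CWr Y H R) =
        e (inl (S p.1 p.2 k)) * n := by
  have : Fintype (Σ i, X i) := Fintype.ofFinite _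
  have : Fintype (Σ j, Y j) := Fintype.ofFinite _
  obtain ⟨σ, hσ⟩ := uniq ((fam_inl (Q := Q) (X := X) hG).equiv e) (fam_inl (Q := R) (X := Y) hH)
    (fun p => hG p.1) (fun p => hH p.1)
  have hσ1 : ∀ p k, ∃ (h : H (σ p).1) (n : CWr Y H R), FC n ∧ e (inl (S p.1 p.2 k)) = inl (S (σ p).1 (σ p).2 h) * n := by
    intro p k
    obtain ⟨h, n, hn, hh⟩ := (hσ p).1 k
    refine ⟨h, n, hn, ?_⟩
    have h1 : e (inl (cur (Pi.mulSingle (M := fun p : Σ i, X i => G p.1) p k))) =
      (inl (cur (Pi.mulSingle (M := fun p : Σ i, Y i => H p.1) (σ p) h)) : CWr Y H R) * n := hh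
    rw [cur_S, cur_S] at h1
    exact h1
  have hσ2 : ∀ p h, ∃ (k : G p.1) (n : CWr Y H R), FC n ∧ (inl (S (σ p).1 (σ p).2 h) : CWr Y H R) =
      e (inl (S p.1 p.2 k)) * n := by
    intro p h
    obtain ⟨k, n, hn, hk⟩ := (hσ p).2 h
    refine ⟨k, n, hn, ?_⟩
    have h1 : (inl (cur (Pi.mulSingle (M := fun p : Σ i, Y i => H p.1) (σ p) h)) : CWr Y H R) =
      e (inl (cur (Pi.mulSingle (M := fun p : Σ i, X i => G p.1) p k))) * n := hk
    rw [cur_S, cur_S] at h1
    exact h1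
  have hθ : ∀ q p, σ (q • p) = (e (inr q)).right • σ p := by
    rintro q ⟨i, x⟩
    obtain ⟨k, hk⟩ := (hG i).1
    obtain ⟨h, n1, hn1, hh⟩ := hσ1 ⟨i, x⟩ k
    obtain ⟨h2, n2, hn2, hh2⟩ := hσ1 ⟨i, q • x⟩ k
    have e1 : e (inr q) * (inl (S (σ ⟨i, x⟩).1 (σ ⟨i, x⟩).2 h) * n1) =
        inl (S (σ ⟨i, q • x⟩).1 (σ ⟨i, q • x⟩).2 h2) * n2 * e (inr q) := by
      rw [← hh, ← hh2, ← map_mul, ← map_mul, conj_S]
    have hne : h ≠ 1 := by
      rintro rfl
      rw [S_one, map_one, one_mul] at hh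
      have h3 : FC (inl (S i x k) : CWr X G Q) := by
        have h4 := (hn1.equiv e.symm)
        rw [← hh, e.symm_apply_apply] at h4
        exact h4
      obtain ⟨q', -, h5⟩ := fc_form hG h3
      have h6 := congrArg SemidirectProduct.left h5
      rw [left_inl, left_inr] at h6
      exact hk (S_inj i x (h6.trans (S_one i x).symm))
    obtain ⟨r1, -, rfl⟩ := fc_form hH hn1
    obtain ⟨r2, hr2, rfl⟩ := fc_form hH hn2
    by_contra hcon
    apply hne
    have e2 := congrArg SemidirectProduct.left e1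
    have e3 : (e (inr q) * (inl (S (σ ⟨i, x⟩).1 (σ ⟨i, x⟩).2 h) * inr r1)).left =
        (e (inr q)).left * S (σ ⟨i, x⟩).1 ((e (inr q)).right • (σ ⟨i, x⟩).2) h := by
      rw [mul_left, mul_left, left_inl, left_inr, map_one, mul_one, act_S]
    have e4 : (inl (S (σ ⟨i, q • x⟩).1 (σ ⟨i, q • x⟩).2 h2) * inr r2 * e (inr q) :
        CWr Y H R).left = S (σ ⟨i, q • x⟩).1 (σ ⟨i, q • x⟩).2 h2 * (e (inr q)).left := by
      rw [mul_left, mul_left, mul_right, left_inl, left_inr, right_inl, right_inr, one_mul, map_one,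
        mul_one, tr_act hr2]
    rw [e3, e4] at e2
    have e5 := congrFun (congrFun e2 (σ ⟨i, x⟩).1) ((e (inr q)).right • (σ ⟨i, x⟩).2)
    have h6 : S (σ ⟨i, q • x⟩).1 (σ ⟨i, q • x⟩).2 h2 (σ ⟨i, x⟩).1
        ((e (inr q)).right • (σ ⟨i, x⟩).2) = 1 := S_ne (fun h => hcon h.symm) h2
    rw [Pi.mul_apply, Pi.mul_apply, Pi.mul_apply, Pi.mul_apply, S_same, h6, one_mul] at e5
    exact mul_eq_left.1 e5
  let θ : Q →* R := rightHom.comp (e.toMonoidHom.comp inr)
  refine ⟨θ, σ, ?_, hθ, hσ1, hσ2⟩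
  rw [injective_iff_map_eq_one]
  intro q hq
  have hq' : (e (inr q)).right = 1 := hq
  have h1 : Tr X q := by
    intro i x
    have h2 := hθ q ⟨i, x⟩
    rw [hq', one_smul] at h2
    have h3 := σ.injective h2
    rw [Sigma.smul_mk] at h3
    simpa using h3
  obtain ⟨r, -, hr⟩ := fc_form hH ((tr_fc (G := G) h1).equiv e)
  have h4 : r = 1 := by
    have h5 := congrArg SemidirectProduct.right hr
    rw [right_inr, hq'] at h5
    exact h5.symm
  rw [h4, map_one, ← map_one e] at hr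
  exact inr_injective ((e.injective hr).trans (map_one inr).symm)

theorem key [Finite (Σ i, X i)] [Finite (Σ j, Y j)] [Finite Q] [Finite R]
    (hG : ∀ i, Irr (G i)) (hH : ∀ j, Irr (H j)) (e : CWr X G Q ≃* CWr Y H R) :
    ∃ (θ : Q ≃* R) (σ : (Σ i, X i) ≃ (Σ j, Y j)), (∀ q p, σ (q • p) = θ q • σ p) ∧
      ∀ p, Nonempty (G p.1 ≃* H (σ p).1) := by
  obtain ⟨θ, σ, hi, hθ, h1, h2⟩ := half hG hH e
  obtain ⟨θ', -, hi', -⟩ := half hH hG e.symm
  have hb : Function.Bijective θ :=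
    hi.bijective_of_nat_card_le (Nat.card_le_card_of_injective θ' hi')
  refine ⟨MulEquiv.ofBijective θ hb, σ, hθ, fun p => ?_⟩
  choose f n hn hf using h1 p
  have hlf : ∀ k, (e (inl (S p.1 p.2 k))).left = S (σ p).1 (σ p).2 (f k) ∧
      Tr Y (e (inl (S p.1 p.2 k))).right := by
    intro k
    obtain ⟨r, hr, hnr⟩ := fc_form hH (hn k)
    rw [hf k, hnr, mul_left, mul_right, left_inl, left_inr, right_inl, right_inr, map_one, mul_one,
      one_mul]
    exact ⟨rfl, hr⟩
  let F : G p.1 →* H (σ p).1 := MonoidHom.mk' f (by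
    intro a b
    apply S_inj (σ p).1 (σ p).2
    rw [← (hlf (a * b)).1, S_mul, S_mul, map_mul, map_mul, mul_left, (hlf a).1, (hlf b).1,
      tr_act (hlf a).2])
  refine ⟨MulEquiv.ofBijective F ⟨?_, ?_⟩⟩
  · rw [injective_iff_map_eq_one]
    intro k hk
    have hk' : f k = 1 := hk
    have h3 := hf k
    rw [hk', S_one, map_one, one_mul] at h3
    have h4 : FC (inl (S p.1 p.2 k) : CWr X G Q) := by
      have h5 := (hn k).equiv e.symm
      rw [← h3, e.symm_apply_apply] at h5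
      exact h5
    obtain ⟨q', -, h5⟩ := fc_form hG h4
    have h6 := congrArg SemidirectProduct.left h5
    rw [left_inl, left_inr] at h6
    exact S_inj _ _ (h6.trans (S_one _ _).symm)
  · intro h
    obtain ⟨k, m, hm, hk⟩ := h2 p h
    refine ⟨k, ?_⟩
    obtain ⟨r, -, rfl⟩ := fc_form hH hm
    have h3 := congrArg SemidirectProduct.left hk
    rw [mul_left, left_inl, left_inr, map_one, mul_one, (hlf k).1] at h3
    exact (S_inj _ _ h3).symm

end

section

variable {I J : Type} {X G : I → Type} {Y H : J → Type} [∀ i, Group (G i)] [∀ j, Group (H j)]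
  {Q R : Type} [Group Q] [∀ i, MulAction Q (X i)] [Group R] [∀ j, MulAction R (Y j)]

theorem conv (θ : Q ≃* R) (σ : (Σ i, X i) ≃ (Σ j, Y j))
    (hs : ∀ q p, σ (q • p) = θ q • σ p) (hp : ∀ p, Nonempty (G p.1 ≃* H (σ p).1)) :
    Nonempty (CWr X G Q ≃* CWr Y H R) := by
  classical
  let ψ : ∀ i j, Nonempty (G i ≃* H j) → (G i ≃* H j) := fun i j h => Classical.choice h
  have hr : ∀ r, Nonempty (G (σ.symm r).1 ≃* H r.1) := by
    intro r
    obtain ⟨p, rfl⟩ := σ.surjective r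
    rw [σ.symm_apply_apply]
    exact hp p
  let Ψ : (∀ i, X i → G i) ≃* (∀ j, Y j → H j) :=
    { toFun := fun f j y => ψ _ _ (hr ⟨j, y⟩) (f (σ.symm ⟨j, y⟩).1 (σ.symm ⟨j, y⟩).2)
      invFun := fun g i x => (ψ _ _ (hp ⟨i, x⟩)).symm (g (σ ⟨i, x⟩).1 (σ ⟨i, x⟩).2)
      left_inv := fun f => by
        funext i x
        have h1 : ∀ (p : Σ i, X i) (h : Nonempty (G p.1 ≃* H (σ ⟨i, x⟩).1)), p = ⟨i, x⟩ →
            (ψ _ _ (hp ⟨i, x⟩)).symm (ψ _ _ h (f p.1 p.2)) = f i x := by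
          rintro _ h rfl
          exact (ψ _ _ h).symm_apply_apply _
        exact h1 _ (hr _) (σ.symm_apply_apply _)
      right_inv := fun g => by
        funext j y
        have h1 : ∀ (p : Σ j, Y j) (h : Nonempty (G (σ.symm ⟨j, y⟩).1 ≃* H p.1)), p = ⟨j, y⟩ →
            ψ _ _ (hr ⟨j, y⟩) ((ψ _ _ h).symm (g p.1 p.2)) = g j y := by
          rintro _ h rfl
          exact (ψ _ _ h).apply_symm_apply _
        exact h1 _ (hp _) (σ.apply_symm_apply _)
      map_mul' := fun f g => by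
        funext j y
        exact map_mul _ _ _ }
  refine ⟨SemidirectProduct.congr Ψ θ ?_⟩
  intro q
  ext f j y
  show ψ _ _ (hr ⟨j, y⟩) (f (σ.symm ⟨j, y⟩).1 (q⁻¹ • (σ.symm ⟨j, y⟩).2)) =
    ψ _ _ (hr ⟨j, (θ q)⁻¹ • y⟩) (f (σ.symm ⟨j, (θ q)⁻¹ • y⟩).1 (σ.symm ⟨j, (θ q)⁻¹ • y⟩).2)
  have h2 : σ.symm ⟨j, (θ q)⁻¹ • y⟩ = q⁻¹ • σ.symm ⟨j, y⟩ := by
    rw [Equiv.symm_apply_eq, hs, σ.apply_symm_apply, map_inv]
    rfl
  have h3 : ∀ (p : Σ i, X i) (h : Nonempty (G p.1 ≃* H j)), p = q⁻¹ • σ.symm ⟨j, y⟩ →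
      ψ _ _ (hr ⟨j, y⟩) (f (σ.symm ⟨j, y⟩).1 (q⁻¹ • (σ.symm ⟨j, y⟩).2)) =
        ψ _ _ h (f p.1 p.2) := by
    rintro _ h rfl
    rfl
  exact h3 _ (hr _) h2

end

end Pool.Agent.U670.WD
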